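import Pool.Agent.helper93.ER.LDE

/-!
# MP_07c750, project ER: row LSM (the part of the measure over a small set has low local entropy)
-/

set_option autoImplicit false

open scoped MatrixGroups ContDiff Topology UpperHalfPlane ComplexConjugate
open UpperHalfPlane MeasureTheory Filter Set

namespace Pool.Agent.ER

open Pool.Agent.RS
open Pool.Agent.MS
open Pool.Agent.EN (XG MG mkX mkM fl pr)

/-- **Row LSM** (short-medium; from LL.ENG, LL.BXR, EN.XFL, EN.XTX). -/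
def LSM_stmt : Prop := ∀ (Γ : Subgroup SL(2, ℝ)) (μ : Measure (XG Γ)) (E : Set (MG Γ)) (α : ℝ), QU.SurfaceGroup Γ → IsProbabilityMeasure μ → (∀ t, μ.map (fl Γ t) = μ) →
  MeasurableSet E → 0 < α → α ≤ 1 → LL.Small Γ α E → μ (pr Γ ⁻¹' E \ Low Γ μ (α / 2)) = 0

/-- the condition on the displacement of a Bowen box -/
def LSM_O (δ : ℝ) (n : ℕ) : Set SL(2, ℝ) :=
  {h | |h.1 0 0 - 1| < δ ∧ |h.1 1 1 - 1| < δ ∧ Real.exp n * |h.1 0 1| < δ ∧ Real.exp n * |h.1 1 0| < δ}

theorem LSM_iff (δ : ℝ) (n : ℕ) (h : SL(2, ℝ)) :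
    (∀ t : ℝ, |t| ≤ n → ∀ i j : Fin 2, |((aM t)⁻¹ * h * aM t).1 i j - (1 : Matrix (Fin 2) (Fin 2) ℝ) i j| < δ) ↔ h ∈ LSM_O δ n := by
  have hn : (0 : ℝ) ≤ (n : ℝ) := Nat.cast_nonneg n
  constructor
  · intro hb
    have f00 := hb 0 (by rw [abs_zero]; exact hn) 0 0
    have f11 := hb 0 (by rw [abs_zero]; exact hn) 1 1
    have f10 := hb n (by rw [abs_of_nonneg hn]) 1 0
    have f01 := hb (-n) (by rw [abs_neg, abs_of_nonneg hn]) 0 1
    rw [LDE_conj] at f00 f11 f10 f01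
    have g10 : Real.exp n * |h.1 1 0| < δ := by
      have : |Real.exp n * h.1 1 0| < δ := by simpa using f10
      rwa [abs_mul, abs_of_pos (Real.exp_pos _)] at this
    have g01 : Real.exp n * |h.1 0 1| < δ := by
      have : |Real.exp n * h.1 0 1| < δ := by simpa using f01
      rwa [abs_mul, abs_of_pos (Real.exp_pos _)] at this
    exact ⟨by simpa using f00, by simpa using f11, g01, g10⟩
  · rintro ⟨g00, g11, g01, g10⟩ t ht i j
    rw [LDE_conj]
    have h1 : Real.exp t ≤ Real.exp n := Real.exp_le_exp.2 ((le_abs_self t).trans ht)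
    have h2 : Real.exp (-t) ≤ Real.exp n := Real.exp_le_exp.2 ((neg_le_abs t).trans ht)
    fin_cases i <;> fin_cases j
    · simpa using g00
    · have : |Real.exp (-t) * h.1 0 1| < δ := by
        rw [abs_mul, abs_of_pos (Real.exp_pos _)]
        exact (mul_le_mul_of_nonneg_right h2 (abs_nonneg _)).trans_lt g01
      simpa using this
    · have : |Real.exp t * h.1 1 0| < δ := by
        rw [abs_mul, abs_of_pos (Real.exp_pos _)]
        exact (mul_le_mul_of_nonneg_right h1 (abs_nonneg _)).trans_lt g10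
      simpa using this
    · simpa using g11

theorem LSM_mem {Γ : Subgroup SL(2, ℝ)} {δ : ℝ} {n : ℕ} {x y : XG Γ} :
    y ∈ Bow Γ δ n x ↔ ∃ g h : SL(2, ℝ), x = mkX Γ g ∧ y = mkX Γ (g * h) ∧ h ∈ LSM_O δ n := by
  constructor
  · rintro ⟨g, h, hx, hy, hb⟩
    exact ⟨g, h, hx, hy, (LSM_iff δ n h).1 hb⟩
  · rintro ⟨g, h, hx, hy, hb⟩
    exact ⟨g, h, hx, hy, (LSM_iff δ n h).2 hb⟩

theorem LSM_open (δ : ℝ) (n : ℕ) : IsOpen (LSM_O δ n) := by
  have hc : ∀ i j : Fin 2, Continuous fun h : SL(2, ℝ) => h.1 i j := fun i j => by fun_prop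
  have h00 := hc 0 0
  have h01 := hc 0 1
  have h10 := hc 1 0
  have h11 := hc 1 1
  unfold LSM_O
  refine IsOpen.and ?_ (IsOpen.and ?_ (IsOpen.and ?_ ?_))
  · exact isOpen_lt (by fun_prop) continuous_const
  · exact isOpen_lt (by fun_prop) continuous_const
  · exact isOpen_lt (by fun_prop) continuous_const
  · exact isOpen_lt (by fun_prop) continuous_const

theorem LSM_openR (hXFL : EN.XFL_stmt) (Γ : Subgroup SL(2, ℝ)) (δ : ℝ) (n : ℕ) :
    IsOpen {p : XG Γ × XG Γ | p.2 ∈ Bow Γ δ n p.1} := by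
  obtain ⟨-, -, -, hom, -⟩ := hXFL Γ
  have h1 : IsOpen {p : SL(2, ℝ) × SL(2, ℝ) | p.1⁻¹ * p.2 ∈ LSM_O δ n} :=
    (LSM_open δ n).preimage (by fun_prop)
  have h2 := (hom.prodMap hom) _ h1
  have h3 : {p : XG Γ × XG Γ | p.2 ∈ Bow Γ δ n p.1} = Prod.map (mkX Γ) (mkX Γ) '' {p : SL(2, ℝ) × SL(2, ℝ) | p.1⁻¹ * p.2 ∈ LSM_O δ n} := by
    ext ⟨x, y⟩
    constructor
    · intro hy
      obtain ⟨g, h, hx, hy, hh⟩ := LSM_mem.1 hy
      refine ⟨(g, g * h), ?_, ?_⟩
      · show g⁻¹ * (g * h) ∈ LSM_O δ n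
        rwa [inv_mul_cancel_left]
      · show (mkX Γ g, mkX Γ (g * h)) = (x, y)
        rw [← hx, ← hy]
    · rintro ⟨⟨g, g'⟩, hg, he⟩
      have he' : (mkX Γ g, mkX Γ g') = (x, y) := he
      have hx : mkX Γ g = x := (Prod.mk.injEq _ _ _ _ ▸ he').1
      have hy : mkX Γ g' = y := (Prod.mk.injEq _ _ _ _ ▸ he').2
      refine LSM_mem.2 ⟨g, g⁻¹ * g', hx.symm, ?_, hg⟩
      rw [mul_inv_cancel_left]
      exact hy.symm
  rw [h3]
  exact h2

theorem LSM_proof (hENG : LL.ENG_stmt) (hBXR : LL.BXR_stmt) (hXFL : EN.XFL_stmt) (hXTX : EN.XTX_stmt) : LSM_stmt := by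
  intro Γ μ E α hΓ hμ hinv hE hα hα1 hsm
  obtain ⟨hX1, hX2, hX3⟩ := hXTX Γ hΓ
  have hmeas : ∀ (δ : ℝ) (n : ℕ), Measurable fun x => μ (Bow Γ δ n x) := by
    intro δ n
    have h1 : MeasurableSet {p : XG Γ × XG Γ | p.2 ∈ Bow Γ δ n p.1} := (LSM_openR hXFL Γ δ n).measurableSet
    exact measurable_measure_prodMk_left h1
  obtain ⟨G, hG⟩ : ∃ G : ℕ → Set (XG Γ), G = fun j => {x | ∀ n : ℕ, j ≤ n →
      μ.real (Bow Γ (1 / (j + 4)) n x) ≤ Real.exp (-((α / 2 + 1 / (j + 4)) * (2 * n)))} := ⟨_, rfl⟩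
  have hGm : ∀ j, MeasurableSet (G j) := by
    intro j
    have h1 : G j = ⋂ n : ℕ, ⋂ _ : j ≤ n, {x | μ.real (Bow Γ (1 / (j + 4)) n x) ≤ Real.exp (-((α / 2 + 1 / (j + 4)) * (2 * n)))} := by
      rw [hG]
      ext x
      simp only [Set.mem_iInter, Set.mem_ofPred_eq]
    rw [h1]
    refine MeasurableSet.iInter fun n => MeasurableSet.iInter fun _ => ?_
    exact measurableSet_le (hmeas _ n).ennreal_toReal measurable_const
  have hG0 : ∀ j, μ (G j ∩ pr Γ ⁻¹' E) = 0 := by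
    intro j
    have hj4 : (4 : ℝ) ≤ (j : ℝ) + 4 := by
      have : (0 : ℝ) ≤ (j : ℝ) := Nat.cast_nonneg j
      linarith
    obtain ⟨δ, hδ⟩ : ∃ δ : ℝ, δ = 1 / ((j : ℝ) + 4) := ⟨_, rfl⟩
    have hδ0 : 0 < δ := by rw [hδ]; positivity
    have hδ1 : δ ≤ 1 / 4 := by rw [hδ]; exact one_div_le_one_div_of_le (by norm_num) hj4
    obtain ⟨r, hr⟩ : ∃ r : ℝ, r = δ / 16 := ⟨_, rfl⟩
    have hr0 : 0 < r := by rw [hr]; positivity
    have hr1 : 4 * r ≤ 1 := by rw [hr]; linarith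
    refine hENG Γ μ (G j) E r ((Real.exp (j + 1) / r) ^ (α + 2 * δ)) (α + 2 * δ) α hΓ hμ hinv (hGm j) hE hr0 (by linarith) hα (by linarith) (by linarith) hsm ?_
    intro q τ hτ hτr
    rcases (G j ∩ LL.Bx Γ r τ q).eq_empty_or_nonempty with h0 | ⟨y0, hy0, hyq⟩
    · rw [h0, measureReal_empty]
      positivity
    · have hpos : 1 ≤ r / τ := by rwa [le_div_iff₀ hτ, one_mul]
      have hlog : 0 ≤ Real.log (r / τ) := Real.log_nonneg hpos
      obtain ⟨n, hn⟩ : ∃ n, n = ⌊Real.log (r / τ)⌋₊ := ⟨_, rfl⟩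
      have hn1 : (n : ℝ) ≤ Real.log (r / τ) := by rw [hn]; exact Nat.floor_le hlog
      have hn2 : Real.log (r / τ) < n + 1 := by rw [hn]; exact Nat.lt_floor_add_one _
      have hpos' : 0 < r / τ := by positivity
      have he1 : Real.exp n ≤ r / τ := by
        rw [← Real.exp_log hpos']; exact Real.exp_le_exp.2 hn1
      have he2 : r / τ < Real.exp (n + 1) := by
        rw [← Real.exp_log hpos']; exact Real.exp_lt_exp.2 hn2
      have hτn : Real.exp n * τ ≤ r := by rwa [le_div_iff₀ hτ] at he1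
      have hτn2 : r < Real.exp (n + 1) * τ := by rwa [div_lt_iff₀ hτ] at he2
      have hsub : LL.Bx Γ r τ q ⊆ Bow Γ δ n y0 := by
        intro z hz
        obtain ⟨g, h, ⟨a1, a2, a3, a4⟩, hy, hz'⟩ := (hBXR Γ r τ q hΓ hτ.le hτr (by linarith)).1 y0 z hyq hz
        refine LSM_mem.2 ⟨g, h, hy, hz', ?_, ?_, ?_, ?_⟩
        · refine lt_of_le_of_lt a1 ?_
          rw [hr]; linarith
        · refine lt_of_le_of_lt a2 ?_
          rw [hr]; linarith
        · have h1 := mul_le_mul_of_nonneg_left a3 (Real.exp_pos (n : ℝ)).le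
          have h2 : 4 * r < δ := by rw [hr]; linarith
          nlinarith
        · have h1 := mul_le_mul_of_nonneg_left a4 (Real.exp_pos (n : ℝ)).le
          have h2 : 4 * r < δ := by rw [hr]; linarith
          nlinarith
      have hle : μ.real (G j ∩ LL.Bx Γ r τ q) ≤ μ.real (Bow Γ δ n y0) :=
        measureReal_mono (Set.inter_subset_right.trans hsub) (measure_ne_top _ _)
      have hv : 0 < α + 2 * δ := by linarith
      have hbase : 0 < Real.exp (j + 1) / r * τ := by positivity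
      have hcomb : (Real.exp (j + 1) / r) ^ (α + 2 * δ) * τ ^ (α + 2 * δ) = (Real.exp (j + 1) / r * τ) ^ (α + 2 * δ) := by
        rw [Real.mul_rpow (by positivity) hτ.le]
      rw [hcomb]
      refine hle.trans ?_
      rcases le_or_gt j n with hjn | hjn
      · rw [hG] at hy0
        have h1 := hy0 n hjn
        rw [← hδ] at h1
        refine h1.trans ?_
        have h2 : Real.exp (-((α / 2 + δ) * (2 * n))) = (Real.exp (-n)) ^ (α + 2 * δ) := by
          rw [← Real.exp_mul]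
          congr 1
          ring
        rw [h2]
        refine Real.rpow_le_rpow (Real.exp_pos _).le ?_ hv.le
        have h3 : Real.exp (-n) ≤ Real.exp 1 / r * τ := by
          have h4 : Real.exp (-(n : ℝ)) * Real.exp (n + 1) = Real.exp 1 := by
            rw [← Real.exp_add]; congr 1; ring
          rw [div_mul_eq_mul_div, le_div_iff₀ hr0, ← h4, mul_assoc]
          exact mul_le_mul_of_nonneg_left hτn2.le (Real.exp_pos _).le
        refine h3.trans ?_
        refine mul_le_mul_of_nonneg_right (div_le_div_of_nonneg_right (Real.exp_le_exp.2 ?_) hr0.le) hτ.le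
        have : (0 : ℝ) ≤ (j : ℝ) := Nat.cast_nonneg j
        linarith
      · refine measureReal_le_one.trans ?_
        refine Real.one_le_rpow ?_ hv.le
        rw [div_mul_eq_mul_div, le_div_iff₀ hr0, one_mul]
        refine hτn2.le.trans ?_
        refine mul_le_mul_of_nonneg_right (Real.exp_le_exp.2 ?_) hτ.le
        have : (n : ℝ) ≤ (j : ℝ) := by exact_mod_cast hjn.le
        linarith
  refine measure_mono_null ?_ (measure_iUnion_null hG0)
  rintro x ⟨hxE, hxL⟩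
  have hx : ¬ ∀ δ : ℝ, 0 < δ → ∀ ε : ℝ, 0 < ε → ∃ᶠ n : ℕ in atTop, Real.exp (-((α / 2 + ε) * (2 * n))) ≤ μ.real (Bow Γ δ n x) := hxL
  push Not at hx
  obtain ⟨δ, hδ, ε, hε, hev⟩ := hx
  rw [Filter.eventually_atTop] at hev
  obtain ⟨n0, hn0⟩ := hev
  obtain ⟨j, hj⟩ := exists_nat_gt (max (n0 : ℝ) (max (1 / δ) (1 / ε)))
  have hj1 : (n0 : ℝ) < j := (le_max_left _ _).trans_lt hj
  have hj2 : 1 / δ < j := ((le_max_left _ _).trans (le_max_right _ _)).trans_lt hj
  have hj3 : 1 / ε < j := ((le_max_right _ _).trans (le_max_right _ _)).trans_lt hj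
  have hjδ : 1 / ((j : ℝ) + 4) ≤ δ := by
    rw [div_le_iff₀ (by positivity)]
    rw [div_lt_iff₀ hδ] at hj2
    nlinarith
  have hjε : 1 / ((j : ℝ) + 4) ≤ ε := by
    rw [div_le_iff₀ (by positivity)]
    rw [div_lt_iff₀ hε] at hj3
    nlinarith
  rw [Set.mem_iUnion]
  refine ⟨j, ?_, hxE⟩
  rw [hG]
  intro n hn
  have hnn : n0 ≤ n := by
    have h1 : n0 < j := by exact_mod_cast hj1
    omega
  have h1 := (hn0 n hnn).le
  have h2 : Bow Γ (1 / ((j : ℝ) + 4)) n x ⊆ Bow Γ δ n x := by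
    rintro y ⟨g, h, hx, hy, hb⟩
    exact ⟨g, h, hx, hy, fun t ht i k => (hb t ht i k).trans_le hjδ⟩
  refine (measureReal_mono h2 (measure_ne_top _ _)).trans (h1.trans (Real.exp_le_exp.2 ?_))
  have h3 : (0 : ℝ) ≤ (n : ℝ) := Nat.cast_nonneg n
  nlinarith

end Pool.Agent.ER
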