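import Pool.Agent.helper93.ER.Spec

/-!
# MP_07c750, project ER: row EZR (a set of small local entropy is covered by few boxes; copy of the row EZ2 of the project MS by helper30)
-/

set_option autoImplicit false

open scoped MatrixGroups ContDiff Topology UpperHalfPlane ComplexConjugate
open UpperHalfPlane MeasureTheory Filter Set

namespace Pool.Agent.ER

open Pool.Agent.RS
open Pool.Agent.MS
open Pool.Agent.EN (XG MG mkX mkM fl pr)

theorem EZR_meas (hXFL : EN.XFL_stmt) (Γ : Subgroup SL(2, ℝ)) (t : ℝ) : Measurable (fl Γ t) := by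
  have h := (hXFL Γ).1.cont
  exact (h.comp (Continuous.prodMk_right t)).measurable

theorem EZR_sys (hXFL : EN.XFL_stmt) (Γ : Subgroup SL(2, ℝ)) (μ : Measure (XG Γ)) (hinv : ∀ t, μ.map (fl Γ t) = μ) :
    LL.Sys μ (fl Γ 1) (fl Γ (-1)) := by
  have hF := (hXFL Γ).1
  refine ⟨⟨EZR_meas hXFL Γ 1, hinv 1⟩, ⟨EZR_meas hXFL Γ (-1), hinv (-1)⟩, fun x => ?_, fun x => ?_⟩
  · rw [← hF.add, add_neg_cancel, hF.zero]
  · rw [← hF.add, neg_add_cancel, hF.zero]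

theorem EZR_cylm {X : Type} [MeasurableSpace X] {T : X → X} (hT : Measurable T) {p : ℕ} {P : X → Fin p} (hP : Measurable P)
    (N : ℕ) (w : Fin N → Fin p) : MeasurableSet {x | ∀ i : Fin N, P (T^[i] x) = w i} := by
  have h1 : {x | ∀ i : Fin N, P (T^[i] x) = w i} = ⋂ i : Fin N, (fun x => P (T^[i] x)) ⁻¹' {w i} := by
    ext x
    simp only [Set.mem_iInter, Set.mem_preimage, Set.mem_singleton_iff, Set.mem_ofPred_eq]
  rw [h1]
  exact MeasurableSet.iInter fun i => (hP.comp (hT.iterate i)) (measurableSet_singleton _)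

open Classical in
/-- the words with heavy cylinders -/
theorem EZR_heavy {X : Type} [MeasurableSpace X] (μ : Measure X) [IsProbabilityMeasure μ] {T : X → X} (hT : Measurable T) {p : ℕ}
    {P : X → Fin p} (hP : Measurable P) (N : ℕ) (b : ℝ) :
    ∃ W : Finset (Fin N → Fin p), (W.card : ℝ) ≤ Real.exp b ∧
      ∀ w, Real.exp (-b) ≤ μ.real {x | ∀ i : Fin N, P (T^[i] x) = w i} → w ∈ W := by
  refine ⟨Finset.univ.filter fun w => Real.exp (-b) ≤ μ.real {x | ∀ i : Fin N, P (T^[i] x) = w i}, ?_,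
    fun w hw => Finset.mem_filter.2 ⟨Finset.mem_univ _, hw⟩⟩
  obtain ⟨W, hW⟩ : ∃ W : Finset (Fin N → Fin p),
    W = Finset.univ.filter fun w => Real.exp (-b) ≤ μ.real {x | ∀ i : Fin N, P (T^[i] x) = w i} := ⟨_, rfl⟩
  rw [← hW]
  have h1 : ∑ w ∈ W, μ.real {x | ∀ i : Fin N, P (T^[i] x) = w i} ≤ 1 := by
    rw [← measureReal_biUnion_finset (μ := μ) (s := W) (f := fun w => {x | ∀ i : Fin N, P (T^[i] x) = w i})]
    · exact measureReal_le_one
    · intro w _ w' _ hne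
      refine Set.disjoint_left.2 ?_
      intro x hx hx'
      apply hne
      funext i
      have h2 : P (T^[i] x) = w i := hx i
      have h3 : P (T^[i] x) = w' i := hx' i
      rw [← h2, h3]
    · intro w _
      exact EZR_cylm hT hP N w
  have h2 : (W.card : ℝ) * Real.exp (-b) ≤ ∑ w ∈ W, μ.real {x | ∀ i : Fin N, P (T^[i] x) = w i} := by
    rw [← nsmul_eq_mul]
    refine Finset.card_nsmul_le_sum _ _ _ fun w hw => ?_
    rw [hW] at hw
    exact (Finset.mem_filter.1 hw).2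
  have h3 : (W.card : ℝ) * Real.exp (-b) ≤ 1 := h2.trans h1
  have h4 : Real.exp (-b) * Real.exp b = 1 := by rw [← Real.exp_add]; simp
  calc (W.card : ℝ) = (W.card : ℝ) * Real.exp (-b) * Real.exp b := by rw [mul_assoc, h4, mul_one]
    _ ≤ 1 * Real.exp b := mul_le_mul_of_nonneg_right h3 (Real.exp_pos _).le
    _ = Real.exp b := one_mul _

theorem EZR_proof (hLOC : LL.LOC_stmt) (hSML : SML_stmt) (hCYB : CYB_stmt) (hPAR : EN.PAR_stmt)
    (hXFL : EN.XFL_stmt) (hXTX : EN.XTX_stmt) (hXNB : EN.XNB_stmt) : EZR_stmt := by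
  intro Γ μ ρ Y hΓ hμ hinv hρ hSm a ha δ hδ
  classical
  obtain ⟨hX1, hX2, hX3⟩ := hXTX Γ hΓ
  obtain ⟨δ₁, hδ₁, hcyb⟩ := hCYB Γ a hΓ ha
  obtain ⟨p, P, hP, hcell, -⟩ := hPAR (XG Γ) μ (fun x => EN.Ux Γ δ₁ x) inferInstance (fun x => hXNB Γ δ₁ x hδ₁)
  have hcy := hcyb p P hP hcell
  have hsys := EZR_sys hXFL Γ μ hinv
  -- parameters
  obtain ⟨κ, hκd⟩ : ∃ κ, κ = δ / 8 := ⟨_, rfl⟩
  have hκ : 0 < κ := by rw [hκd]; linarith
  obtain ⟨ε, hε0, hε1, hε2, hε3⟩ : ∃ ε : ℝ, 0 < ε ∧ ε ≤ 1 / 8 ∧ 3 * ε ≤ δ / 8 ∧ 3 * ε / κ ≤ δ / 2 := by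
    refine ⟨min (1 / 8) (min (δ / 24) (δ * κ / 6)), ?_, ?_, ?_, ?_⟩
    · exact lt_min (by norm_num) (lt_min (by linarith) (by positivity))
    · exact min_le_left _ _
    · have := (min_le_right (1 / 8) (min (δ / 24) (δ * κ / 6))).trans (min_le_left _ _)
      linarith
    · have := (min_le_right (1 / 8) (min (δ / 24) (δ * κ / 6))).trans (min_le_right _ _)
      rw [div_le_iff₀ hκ]
      linarith
  obtain ⟨J, L, hJm, hJT, hJL, hJH, hcyl⟩ := hLOC (XG Γ) μ (fl Γ 1) (fl Γ (-1)) p P ε hμ hsys hP hε0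
  have hz := hSm p P J ε hP hJm hε0 hε1 hcyl
  have hev := hSML (XG Γ) μ (fl Γ 1) (fl Γ (-1)) p P J L ε hμ hsys hP hJm hJL hε0 hJH hcyl κ hκ
  obtain ⟨k0, hk0⟩ := Filter.eventually_atTop.1 hev
  have hmY : μ.real Y ≤ μ.real {x : XG Γ | J x ≤ ρ + 3 * ε} := by
    have h6 : μ Y ≤ μ {x : XG Γ | J x ≤ ρ + 3 * ε} := by
      calc μ Y ≤ μ ({x : XG Γ | J x ≤ ρ + 3 * ε} ∪ ({x | ρ + 3 * ε < J x} ∩ Y)) := by
            apply measure_mono
            intro x hx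
            rcases le_or_gt (J x) (ρ + 3 * ε) with h | h
            · exact Or.inl h
            · exact Or.inr ⟨h, hx⟩
        _ ≤ μ {x : XG Γ | J x ≤ ρ + 3 * ε} + μ ({x | ρ + 3 * ε < J x} ∩ Y) := measure_union_le _ _
        _ = μ {x : XG Γ | J x ≤ ρ + 3 * ε} := by rw [hz, add_zero]
    exact ENNReal.toReal_mono (measure_ne_top _ _) h6
  refine ⟨max (2 * k0) (⌈(1 + 2 * ρ) / δ⌉₊ + 1), fun n hn => ?_⟩
  have hn1 : 2 * k0 ≤ n := (le_max_left _ _).trans hn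
  have hn2 : ⌈(1 + 2 * ρ) / δ⌉₊ + 1 ≤ n := (le_max_right _ _).trans hn
  obtain ⟨k, hk⟩ : ∃ k, k = n / 2 := ⟨_, rfl⟩
  have hk1 : k0 ≤ k := by omega
  have hN1 : n ≤ 2 * k + 1 := by omega
  have hN2 : 2 * k + 1 ≤ n + 1 := by omega
  have hN1' : (n : ℝ) ≤ ((2 * k + 1 : ℕ) : ℝ) := by exact_mod_cast hN1
  have hN2' : ((2 * k + 1 : ℕ) : ℝ) ≤ (n : ℝ) + 1 := by exact_mod_cast hN2
  have hnδ : (1 + 2 * ρ) / δ + 1 ≤ (n : ℝ) := by
    have h1 : (((⌈(1 + 2 * ρ) / δ⌉₊ + 1 : ℕ)) : ℝ) ≤ (n : ℝ) := by exact_mod_cast hn2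
    have h2 := Nat.le_ceil ((1 + 2 * ρ) / δ)
    push_cast at h1
    linarith
  -- the heavy words
  obtain ⟨W, hWc, hWm⟩ := EZR_heavy μ hsys.mp.measurable hP (2 * k + 1) (((2 * k + 1 : ℕ) : ℝ) * (ρ + δ / 4))
  choose c hc using fun w : Fin (2 * k + 1) → Fin p => hcy (2 * k + 1) w (by omega)
  refine ⟨W.image c, ?_, ?_⟩
  · have h1 : ((W.image c).card : ℝ) ≤ (W.card : ℝ) := by exact_mod_cast Finset.card_image_le
    refine h1.trans (hWc.trans (Real.exp_le_exp.2 ?_))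
    have h2 : ((2 * k + 1 : ℕ) : ℝ) * (ρ + δ / 4) ≤ ((n : ℝ) + 1) * (ρ + δ / 4) :=
      mul_le_mul_of_nonneg_right hN2' (by linarith)
    have h3 : 1 + 2 * ρ + δ ≤ δ * n := by
      have h4 := mul_le_mul_of_nonneg_left hnδ hδ.le
      have h5 : δ * ((1 + 2 * ρ) / δ + 1) = 1 + 2 * ρ + δ := by field_simp
      linarith
    nlinarith
  · have hbad := hk0 k hk1
    have hbadr : μ.real {x | LL.cyl μ (fl Γ 1) P (2 * k + 1) ((fl Γ (-1))^[k] x) <
        Real.exp (-(((2 * k + 1 : ℕ) : ℝ) * (J x + κ)))} ≤ δ / 2 :=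
      (ENNReal.toReal_le_of_le_ofReal (by positivity) hbad).trans hε3
    have hZm : MeasurableSet (⋃ w ∈ W, {x | ∀ i : Fin (2 * k + 1), P ((fl Γ 1)^[i] x) = w i}) :=
      Finset.measurableSet_biUnion _ fun w _ => EZR_cylm hsys.mp.measurable hP _ w
    have hsub : {x : XG Γ | J x ≤ ρ + 3 * ε} ⊆
        ((fl Γ (-1))^[k] ⁻¹' (⋃ w ∈ W, {x | ∀ i : Fin (2 * k + 1), P ((fl Γ 1)^[i] x) = w i})) ∪
        {x | LL.cyl μ (fl Γ 1) P (2 * k + 1) ((fl Γ (-1))^[k] x) < Real.exp (-(((2 * k + 1 : ℕ) : ℝ) * (J x + κ)))} := by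
      intro x hx
      have hx' : J x ≤ ρ + 3 * ε := hx
      by_cases hb : LL.cyl μ (fl Γ 1) P (2 * k + 1) ((fl Γ (-1))^[k] x) < Real.exp (-(((2 * k + 1 : ℕ) : ℝ) * (J x + κ)))
      · exact Or.inr hb
      · refine Or.inl ?_
        rw [not_lt] at hb
        have h1 : Real.exp (-(((2 * k + 1 : ℕ) : ℝ) * (ρ + δ / 4))) ≤
            LL.cyl μ (fl Γ 1) P (2 * k + 1) ((fl Γ (-1))^[k] x) := by
          refine le_trans (Real.exp_le_exp.2 ?_) hb
          rw [neg_le_neg_iff]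
          refine mul_le_mul_of_nonneg_left ?_ (Nat.cast_nonneg _)
          rw [hκd]
          linarith
        have h2 := hWm (fun i => P ((fl Γ 1)^[i] ((fl Γ (-1))^[k] x))) h1
        show (fl Γ (-1))^[k] x ∈ ⋃ w ∈ W, {x | ∀ i : Fin (2 * k + 1), P ((fl Γ 1)^[i] x) = w i}
        simp only [Set.mem_iUnion]
        exact ⟨_, h2, fun i => rfl⟩
    have h1 : μ.real {x : XG Γ | J x ≤ ρ + 3 * ε} ≤
        μ.real (⋃ w ∈ W, {x | ∀ i : Fin (2 * k + 1), P ((fl Γ 1)^[i] x) = w i}) + δ / 2 := by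
      refine (measureReal_mono hsub).trans ((measureReal_union_le _ _).trans ?_)
      have h2 : μ.real ((fl Γ (-1))^[k] ⁻¹' (⋃ w ∈ W, {x | ∀ i : Fin (2 * k + 1), P ((fl Γ 1)^[i] x) = w i})) =
          μ.real (⋃ w ∈ W, {x | ∀ i : Fin (2 * k + 1), P ((fl Γ 1)^[i] x) = w i}) := by
        unfold Measure.real
        rw [(hsys.ms.iterate k).measure_preimage hZm.nullMeasurableSet]
      rw [h2]
      linarith
    have h3 : μ.real (⋃ w ∈ W, {x | ∀ i : Fin (2 * k + 1), P ((fl Γ 1)^[i] x) = w i}) ≤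
        μ.real {x | ∃ y ∈ W.image c, ∃ h : SL(2, ℝ), bq a a (a * Real.exp (-n)) h ∧ x = mkX Γ (y * h)} := by
      refine measureReal_mono ?_
      intro x hx
      simp only [Set.mem_iUnion] at hx
      obtain ⟨w, hw, hxw⟩ := hx
      obtain ⟨h, hb, hxh⟩ := hc w hxw
      refine ⟨c w, Finset.mem_image_of_mem _ hw, h, ?_, hxh⟩
      refine ⟨hb.1, hb.2.1, hb.2.2.1, hb.2.2.2.trans ?_⟩
      refine mul_le_mul_of_nonneg_left (Real.exp_le_exp.2 ?_) ha.le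
      linarith
    linarith

end Pool.Agent.ER
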