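import Pool.Agent.helper62.MS.SpecD

/-!
# MP_07c750, project ER: the reflection inequality for the entropy of the lift of a quantum limit

Phase space form of the theorem DU (`Pool.Agent.helper62.MS.SpecD`).

THEOREM (ER). Let `ν` be a weak limit of `|φ_k|² dz`, `φ_k` normalised eigenfunctions with eigenvalues `→ ∞` on a closed hyperbolic surface. There is a
probability measure `μ` on `X = Γ \ SL(2, ℝ)`, invariant under the geodesic flow, with projection `ν`, such that the distribution function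
`F(s) = μ {h ≤ s}` of the local entropy `h` satisfies `F(s) + F(s') ≤ 1` whenever `s + s' < 1`.

PROOF. Rows MU (the lift), KAT (local entropy of the cylinders against boxes), SML, CYB, MS2 of the projects LL and MS. The set `Low s` of the points with
lower local entropy (Brin and Katok) at most `s` is, up to measure zero, contained in `{J ≤ s + 3 ε}` for every approximate entropy function `J` (row LDE).
-/

open scoped MatrixGroups ContDiff Topology UpperHalfPlane ComplexConjugate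
open UpperHalfPlane MeasureTheory Filter Set

namespace Pool.Agent.ER

open Pool.Agent.RS
open Pool.Agent.MS
open Pool.Agent.EN (XG MG mkX mkM fl pr)

/-- the two sided Bowen box of size `δ` and length `n` around `x`: the points `y = mkX (g * h)`, `x = mkX g`, with `h` so close to the identity that
`(aM t)⁻¹ * h * aM t` (the displacement between the two orbits at time `t`) is `δ`-close to the identity for all times `|t| ≤ n` -/
def Bow (Γ : Subgroup SL(2, ℝ)) (δ : ℝ) (n : ℕ) (x : XG Γ) : Set (XG Γ) :=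
  {y | ∃ g h : SL(2, ℝ), x = mkX Γ g ∧ y = mkX Γ (g * h) ∧
    ∀ t : ℝ, |t| ≤ n → ∀ i j : Fin 2, |((aM t)⁻¹ * h * aM t).1 i j - (1 : Matrix (Fin 2) (Fin 2) ℝ) i j| < δ}

/-- the points at which the lower local entropy of `μ` (Brin and Katok), the limit for `δ → 0` of `liminf -(1/(2n)) log μ (Bow δ n x)`, is at most `s` -/
def Low (Γ : Subgroup SL(2, ℝ)) (μ : Measure (XG Γ)) (s : ℝ) : Set (XG Γ) :=
  {x | ∀ δ : ℝ, 0 < δ → ∀ ε : ℝ, 0 < ε → ∃ᶠ n : ℕ in atTop, Real.exp (-((s + ε) * (2 * n))) ≤ μ.real (Bow Γ δ n x)}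

/-- all approximate local entropies of `μ` are at most `ρ + 3 ε` on `Y` -/
def LowJ (Γ : Subgroup SL(2, ℝ)) (μ : Measure (XG Γ)) (ρ : ℝ) (Y : Set (XG Γ)) : Prop :=
  ∀ (p : ℕ) (P : XG Γ → Fin p) (J : XG Γ → ℝ) (ε : ℝ), Measurable P → Measurable J → 0 < ε → ε ≤ 1 / 8 →
    (∀ᵐ x ∂μ, ∀ᶠ n : ℕ in atTop, LL.cyl μ (fl Γ 1) P (2 * n + 1) ((fl Γ (-1))^[n] x) ≤ Real.exp (-(((2 * n + 1 : ℕ) : ℝ) * (J x - ε)))) →
    μ ({x | ρ + 3 * ε < J x} ∩ Y) = 0

/-- **Row LDE** (medium; from LL.KAT, LL.BXR). -/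
def LDE_stmt : Prop := ∀ (Γ : Subgroup SL(2, ℝ)) (μ : Measure (XG Γ)) (ρ : ℝ), QU.SurfaceGroup Γ → IsProbabilityMeasure μ → (∀ t, μ.map (fl Γ t) = μ) → 0 ≤ ρ →
  LowJ Γ μ ρ (Low Γ μ ρ)

/-- **Row EZR** (medium; from LL.LOC, SML, CYB, EN.PAR, EN.A_XFL, EN.A_XTX, EN.A_XNB; copy of EZ2). -/
def EZR_stmt : Prop := ∀ (Γ : Subgroup SL(2, ℝ)) (μ : Measure (XG Γ)) (ρ : ℝ) (Y : Set (XG Γ)), QU.SurfaceGroup Γ → IsProbabilityMeasure μ → (∀ t, μ.map (fl Γ t) = μ) →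
  0 ≤ ρ → LowJ Γ μ ρ Y → ∀ a : ℝ, 0 < a → CW Γ μ (μ.real Y) a ρ

/-- **Row ER1** (short-medium; from MU, EZR, MS2, STB, EN.A_XFL, QU.A_DOM, QU.A_DOB; copy of DU1). -/
def ER1_stmt : Prop := ∀ (Γ : Subgroup SL(2, ℝ)) (F : Set ℍ) (r : ℕ → ℝ) (φ : ℕ → ℍ → ℂ) (ν : Measure (MG Γ)), QU.SurfaceGroup Γ →
  IsFundamentalDomain Γ F (volume : Measure ℍ) → Tendsto r atTop atTop → (∀ k, Eig Γ (r k) (φ k)) → (∀ k, ∫ z in F, ‖φ k z‖ ^ 2 = 1) → IsFiniteMeasure ν →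
  (∀ V : MG Γ → ℝ, Continuous V → Tendsto (fun k => ∫ z in F, V (mkM Γ z) * ‖φ k z‖ ^ 2) atTop (𝓝 (∫ x, V x ∂ν))) →
  ∃ μ : Measure (XG Γ), IsProbabilityMeasure μ ∧ (∀ t, μ.map (fl Γ t) = μ) ∧ μ.map (pr Γ) = ν ∧
    ∀ (ρ ρ' : ℝ) (Y Y' : Set (XG Γ)), 0 ≤ ρ → 0 ≤ ρ' → ρ + ρ' < 1 → LowJ Γ μ ρ Y → LowJ Γ μ ρ' Y' → μ.real Y + μ.real Y' ≤ 1

end Pool.Agent.ER
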