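import Pool.Agent.helper93.ER.Spec

/-!
# MP_07c750, project ER: row ER1 (copy of the row DU1 of the project MS by helper39)
-/

set_option autoImplicit false

open scoped MatrixGroups ContDiff Topology UpperHalfPlane ComplexConjugate
open UpperHalfPlane MeasureTheory Filter Set

namespace Pool.Agent.ER

open Pool.Agent.RS
open Pool.Agent.MS
open Pool.Agent.EN (XG MG mkX mkM fl pr)

/-- invariant functions descend to the quotient -/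
noncomputable def ER1_lift (Γ : Subgroup SL(2, ℝ)) (Ψ : SL(2, ℝ) → ℝ) (h : InvG Γ Ψ) : XG Γ → ℝ :=
  Quotient.lift Ψ (by
    rintro a b ⟨γ, hγ⟩
    have h' : (γ : SL(2, ℝ)) * b = a := hγ
    rw [← h', h.2])

theorem ER1_lift_mk (Γ : Subgroup SL(2, ℝ)) (Ψ : SL(2, ℝ) → ℝ) (h : InvG Γ Ψ) (g : SL(2, ℝ)) :
    ER1_lift Γ Ψ h (mkX Γ g) = Ψ g := rfl

theorem ER1_lift_cont (Γ : Subgroup SL(2, ℝ)) (Ψ : SL(2, ℝ) → ℝ) (h : InvG Γ Ψ) : Continuous (ER1_lift Γ Ψ h) :=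
  Continuous.quotient_lift h.1 _

theorem ER1_int (Γ : Subgroup SL(2, ℝ)) (μ : Measure (XG Γ)) (hμ : IsProbabilityMeasure μ) (Φ : XG Γ → ℝ)
    (hc : Continuous Φ) (h01 : ∀ x, 0 ≤ Φ x ∧ Φ x ≤ 1) : Integrable Φ μ := by
  refine Integrable.mono' (integrable_const (1 : ℝ)) hc.aestronglyMeasurable (Filter.Eventually.of_forall fun x => ?_)
  rw [Real.norm_eq_abs, abs_of_nonneg (h01 x).1]
  exact (h01 x).2

theorem ER1_low (Γ : Subgroup SL(2, ℝ)) (hsur : Function.Surjective (mkX Γ)) (μ : Measure (XG Γ)) (hμ : IsProbabilityMeasure μ)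
    (A : Finset SL(2, ℝ)) (a v : ℝ) (Ψ : SL(2, ℝ) → ℝ) (h : InvG Γ Ψ) (h01 : ∀ g, 0 ≤ Ψ g ∧ Ψ g ≤ 1)
    (h1 : ∀ g, (∃ y ∈ A, ∃ γ : Γ, bq a a v (y⁻¹ * (γ : SL(2, ℝ)) * g)) → Ψ g = 1) :
    μ.real {x | ∃ y ∈ A, ∃ h : SL(2, ℝ), bq a a v h ∧ x = mkX Γ (y * h)} ≤ ∫ x, ER1_lift Γ Ψ h x ∂μ := by
  have h01' : ∀ x, 0 ≤ ER1_lift Γ Ψ h x ∧ ER1_lift Γ Ψ h x ≤ 1 := by
    intro x
    obtain ⟨g, rfl⟩ := hsur x
    exact h01 g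
  have hI := ER1_int Γ μ hμ _ (ER1_lift_cont Γ Ψ h) h01'
  have h2 := mul_meas_ge_le_integral_of_nonneg (μ := μ) (f := ER1_lift Γ Ψ h) (Filter.Eventually.of_forall fun x => (h01' x).1) hI 1
  rw [one_mul] at h2
  refine le_trans ?_ h2
  refine measureReal_mono ?_ (measure_ne_top _ _)
  rintro x ⟨y, hy, k, hk, rfl⟩
  change 1 ≤ ER1_lift Γ Ψ h (mkX Γ (y * k))
  rw [ER1_lift_mk, h1 _ ⟨y, hy, 1, ?_⟩]
  have e : y⁻¹ * ((1 : Γ) : SL(2, ℝ)) * (y * k) = k := by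
    rw [Subgroup.coe_one, mul_one, inv_mul_cancel_left]
  rw [e]
  exact hk

theorem ER1_proof (hMU : MU_stmt) (hEZR : EZR_stmt) (hMS2 : MS2_stmt) (hSTB : STB_stmt) (hXFL : EN.XFL_stmt)
    (hDOM : QU.DOM_stmt) (hDOB : QU.DOB_stmt) : ER1_stmt := by
  intro Γ F r φ ν hΓ hF hr hφ hn hfin hν
  obtain ⟨F₀, hF₀⟩ := hDOM Γ hΓ
  obtain ⟨-, -, -, -, hdob, -⟩ := hDOB Γ F₀ hΓ hF₀
  have hdom := (hdob F hF).2
  obtain ⟨-, hprc, -, -, hsur, -, -, -, -, -, -, hmkM⟩ := hXFL Γ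
  obtain ⟨-, -, -, -, -, hex⟩ := hSTB
  obtain ⟨β, hβ⟩ := (hex (1 / 4) (by norm_num)).2
  obtain ⟨α, hα'⟩ := (hex (1 / 8) (by norm_num)).1
  have hinv : ∀ k (γ : Γ) z, ‖φ k (γ • z)‖ ^ 2 = ‖φ k z‖ ^ 2 := by
    intro k γ z
    rw [(hφ k).2.1 γ z]
  have hn0 : ∀ k, nn F₀ (φ k) = 1 := by
    intro k
    unfold nn
    rw [← hdom _ (hinv k)]
    exact hn k
  have hν0 : ∀ V : MG Γ → ℝ, Continuous V →
      Tendsto (fun k => ∫ z in F₀, V (mkM Γ z) * ‖φ k z‖ ^ 2) atTop (𝓝 (∫ x, V x ∂ν)) := by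
    intro V hV
    refine (hν V hV).congr fun k => ?_
    refine hdom _ fun γ z => ?_
    rw [hinv k γ z, (hmkM (γ • z) z).2 ⟨γ⁻¹, by rw [inv_smul_smul]⟩]
  obtain ⟨μ, hμ, hflow, hmap, hlow⟩ := hMU Γ F₀ β α r φ ν hΓ hF₀ hβ hα' hr hφ hn0 hfin hν0
  refine ⟨μ, hμ, hflow, hmap, ?_⟩
  intro ρ ρ' Y Y' hρ hρ' hρρ hY hY'
  set m : ℝ := μ.real Y + μ.real Y' with hm
  have hm0 : 0 ≤ m := add_nonneg measureReal_nonneg measureReal_nonneg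
  have hm2 : m ≤ 2 := by
    have h1 : μ.real Y ≤ 1 := measureReal_le_one
    have h2 : μ.real Y' ≤ 1 := measureReal_le_one
    linarith
  have key : ∀ ε : ℝ, 0 < ε → ε ≤ 1 → m ≤ 1 + ε := by
    intro ε hε hε1
    obtain ⟨a, δ, n1, ha, hδ, -, hMS⟩ := hMS2 Γ F₀ β α ρ ρ' hΓ hF₀ hβ hα' hρ hρ' hρρ ε hε hε1
    obtain ⟨n2, hn2⟩ := hEZR Γ μ ρ Y hΓ hμ hflow hρ hY a ha δ hδ
    obtain ⟨n3, hn3⟩ := hEZR Γ μ ρ' Y' hΓ hμ hflow hρ' hY' a ha δ hδ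
    set n := max n1 (max n2 n3) with hnn
    obtain ⟨A, hA, hAm⟩ := hn2 n (le_trans (le_max_left _ _) (le_max_right _ _))
    obtain ⟨A', hA', hAm'⟩ := hn3 n (le_trans (le_max_right _ _) (le_max_right _ _))
    obtain ⟨Ψ, Ψ', r2, hI, hI', h01, h01', h1, h1', hr2, hfinal⟩ := hMS n (le_max_left _ _) A A' hA hA'
    have hc := ER1_lift_cont Γ Ψ hI
    have hc' := ER1_lift_cont Γ Ψ' hI'
    have g01 : ∀ x, 0 ≤ ER1_lift Γ Ψ hI x ∧ ER1_lift Γ Ψ hI x ≤ 1 := by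
      intro x
      obtain ⟨g, rfl⟩ := hsur x
      exact h01 g
    have g01' : ∀ x, 0 ≤ ER1_lift Γ Ψ' hI' x ∧ ER1_lift Γ Ψ' hI' x ≤ 1 := by
      intro x
      obtain ⟨g, rfl⟩ := hsur x
      exact h01' g
    have hi := ER1_low Γ hsur μ hμ A a _ Ψ hI h01 h1
    have hi' := ER1_low Γ hsur μ hμ A' a _ Ψ' hI' h01' h1'
    have hsum : ∫ x, (ER1_lift Γ Ψ hI x + ER1_lift Γ Ψ' hI' x) ∂μ =
        ∫ x, ER1_lift Γ Ψ hI x ∂μ + ∫ x, ER1_lift Γ Ψ' hI' x ∂μ :=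
      integral_add (ER1_int Γ μ hμ _ hc g01) (ER1_int Γ μ hμ _ hc' g01')
    have hb : m - 4 * δ < ∫ x, (ER1_lift Γ Ψ hI x + ER1_lift Γ Ψ' hI' x) ∂μ := by
      rw [hsum]
      linarith
    have hfr := hlow (fun x => ER1_lift Γ Ψ hI x + ER1_lift Γ Ψ' hI' x) (m - 4 * δ) (hc.add hc') hb
    have hev : ∀ᶠ k in atTop, r2 ≤ r k := hr.eventually (eventually_ge_atTop r2)
    obtain ⟨k, ⟨t, ht1, ht2, ht3⟩, hk⟩ := (hfr.and_eventually hev).exists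
    refine hfinal (r k) m t (φ k) hk ?_ (hn0 k) hm0 hm2 ht1 ht2 ht3
    exact ⟨(hφ k).1.of_le (WithTop.coe_le_coe.2 (le_top : (2 : ℕ∞) ≤ ⊤)), (hφ k).2.1, fun z => by rw [(hφ k).2.2 z]⟩
  by_contra hcon
  push Not at hcon
  have h1 := key (min ((m - 1) / 2) 1) (lt_min (by linarith) one_pos) (min_le_right _ _)
  have h2 : min ((m - 1) / 2) 1 ≤ (m - 1) / 2 := min_le_left _ _
  linarith

end Pool.Agent.ER
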