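import Pool.Agent.helper62.MS.All
import Pool.Agent.helper93.ER.LSM
import Pool.Agent.helper93.ER.EZR
import Pool.Agent.helper93.ER.ER1

/-!
# MP_07c750, project ER: assembly
-/

set_option autoImplicit false

open scoped MatrixGroups ContDiff Topology UpperHalfPlane ComplexConjugate
open UpperHalfPlane MeasureTheory Filter Set

namespace Pool.Agent.ER

open Pool.Agent.RS
open Pool.Agent.MS
open Pool.Agent.EN (XG MG mkX mkM fl pr)

theorem A_LDE : LDE_stmt := LDE_proof LL.A_KAT LL.A_BXR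
theorem A_LSM : LSM_stmt := LSM_proof LL.A_ENG LL.A_BXR EN.A_XFL EN.A_XTX
theorem A_EZR : EZR_stmt := EZR_proof LL.A_LOC MS.A_SML MS.A_CYB EN.A_PAR EN.A_XFL EN.A_XTX EN.A_XNB
theorem A_ER1 : ER1_stmt := ER1_proof MS.A_MU A_EZR MS.A_MS2 MS.A_STB EN.A_XFL QU.A_DOM QU.A_DOB

/-- the set of the points of low local entropy is a Borel set -/
theorem Low_meas (Γ : Subgroup SL(2, ℝ)) (hΓ : QU.SurfaceGroup Γ) (μ : Measure (XG Γ)) (hμ : IsProbabilityMeasure μ) (s : ℝ) :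
    MeasurableSet (Low Γ μ s) := by
  obtain ⟨hX1, hX2, hX3⟩ := EN.A_XTX Γ hΓ
  have hmeas : ∀ (δ : ℝ) (n : ℕ), Measurable fun x => μ (Bow Γ δ n x) := by
    intro δ n
    have h1 : MeasurableSet {p : XG Γ × XG Γ | p.2 ∈ Bow Γ δ n p.1} := (LSM_openR EN.A_XFL Γ δ n).measurableSet
    exact measurable_measure_prodMk_left h1
  have hmono : ∀ (δ δ' : ℝ) (n : ℕ) (x : XG Γ), δ ≤ δ' → μ.real (Bow Γ δ n x) ≤ μ.real (Bow Γ δ' n x) := by
    intro δ δ' n x h
    refine measureReal_mono ?_ (measure_ne_top _ _)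
    rintro y ⟨g, k, hx, hy, hb⟩
    exact ⟨g, k, hx, hy, fun t ht i j => (hb t ht i j).trans_le h⟩
  have h1 : Low Γ μ s = ⋂ j : ℕ, {x | ∃ᶠ n : ℕ in atTop, Real.exp (-((s + 1 / ((j : ℝ) + 1)) * (2 * n))) ≤ μ.real (Bow Γ (1 / ((j : ℝ) + 1)) n x)} := by
    ext x
    simp only [Set.mem_iInter, Set.mem_ofPred_eq]
    constructor
    · intro hx j
      exact hx _ (by positivity) _ (by positivity)
    · intro hx δ hδ ε hε
      obtain ⟨j, hj⟩ := exists_nat_gt (max (1 / δ) (1 / ε))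
      have hj2 : 1 / δ < j := (le_max_left _ _).trans_lt hj
      have hj3 : 1 / ε < j := (le_max_right _ _).trans_lt hj
      have hjδ : 1 / ((j : ℝ) + 1) ≤ δ := by
        rw [div_le_iff₀ (by positivity)]
        rw [div_lt_iff₀ hδ] at hj2
        nlinarith
      have hjε : 1 / ((j : ℝ) + 1) ≤ ε := by
        rw [div_le_iff₀ (by positivity)]
        rw [div_lt_iff₀ hε] at hj3
        nlinarith
      refine (hx j).mono fun n hn => ?_
      refine le_trans (Real.exp_le_exp.2 ?_) (hn.trans (hmono _ _ n x hjδ))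
      have h3 : (0 : ℝ) ≤ (n : ℝ) := Nat.cast_nonneg n
      nlinarith
  rw [h1]
  refine MeasurableSet.iInter fun j => ?_
  have h2 : {x : XG Γ | ∃ᶠ n : ℕ in atTop, Real.exp (-((s + 1 / ((j : ℝ) + 1)) * (2 * n))) ≤ μ.real (Bow Γ (1 / ((j : ℝ) + 1)) n x)} =
      ⋂ m : ℕ, ⋃ n : ℕ, ⋃ _ : m ≤ n, {x | Real.exp (-((s + 1 / ((j : ℝ) + 1)) * (2 * n))) ≤ μ.real (Bow Γ (1 / ((j : ℝ) + 1)) n x)} := by
    ext x
    simp only [Set.mem_iInter, Set.mem_iUnion, Set.mem_ofPred_eq, Filter.frequently_atTop, exists_prop]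
  rw [h2]
  exact MeasurableSet.iInter fun m => MeasurableSet.iUnion fun n => MeasurableSet.iUnion fun _ =>
    measurableSet_le measurable_const (hmeas _ n).ennreal_toReal

end Pool.Agent.ER
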