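import Pool.Agent.helper93.ER.Spec

/-!
# MP_07c750, project ER: row LDE (points of low local entropy)
-/

set_option autoImplicit false

open scoped MatrixGroups ContDiff Topology UpperHalfPlane ComplexConjugate
open UpperHalfPlane MeasureTheory Filter Set

namespace Pool.Agent.ER

open Pool.Agent.RS
open Pool.Agent.MS
open Pool.Agent.EN (XG MG mkX mkM fl pr)

theorem LDE_conj (t : ℝ) (h : SL(2, ℝ)) :
    ((aM t)⁻¹ * h * aM t).1 = !![h.1 0 0, Real.exp (-t) * h.1 0 1; Real.exp t * h.1 1 0, h.1 1 1] := by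
  have e : ((aM t)⁻¹ * h * aM t).1 = !![Real.exp (-(t / 2)), 0; 0, Real.exp (t / 2)] * h.1 *
      !![Real.exp (t / 2), 0; 0, Real.exp (-(t / 2))] := by
    have h2 : ((aM t)⁻¹ : SL(2, ℝ)).1 = !![Real.exp (-(t / 2)), 0; 0, Real.exp (t / 2)] := by
      rw [Matrix.SpecialLinearGroup.SL2_inv_expl]
      simp [aM]
      rfl
    rw [← h2]
    rfl
  have h1 : Real.exp (-(t / 2)) * Real.exp (t / 2) = 1 := by rw [← Real.exp_add]; simp
  have h3 : Real.exp (-(t / 2)) * Real.exp (-(t / 2)) = Real.exp (-t) := by rw [← Real.exp_add]; congr 1; ring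
  have h4 : Real.exp (t / 2) * Real.exp (t / 2) = Real.exp t := by rw [← Real.exp_add]; congr 1; ring
  rw [e]
  obtain ⟨a, b, c, d, hM⟩ : ∃ a b c d : ℝ, h.1 = !![a, b; c, d] := ⟨_, _, _, _, Matrix.eta_fin_two _⟩
  rw [hM, Matrix.mul_fin_two, Matrix.mul_fin_two]
  ext i j
  fin_cases i <;> fin_cases j
  · simp
    linear_combination a * h1
  · simp
    linear_combination b * h3
  · simp
    linear_combination c * h4
  · simp
    linear_combination d * h1

/-- the Bowen box is inside the box of `LL.Bx` -/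
theorem LDE_sub (Γ : Subgroup SL(2, ℝ)) (r : ℝ) (n : ℕ) (x : XG Γ) :
    Bow Γ r n x ⊆ LL.Bx Γ r (r * Real.exp (-n)) x := by
  rintro y ⟨g, h, hx, hy, hb⟩
  refine ⟨g, h, ?_, hx, hy⟩
  have hn : (0 : ℝ) ≤ (n : ℝ) := Nat.cast_nonneg n
  have f00 := hb 0 (by rw [abs_zero]; exact hn) 0 0
  have f11 := hb 0 (by rw [abs_zero]; exact hn) 1 1
  have f10 := hb n (by rw [abs_of_nonneg hn]) 1 0
  have f01 := hb (-n) (by rw [abs_neg, abs_of_nonneg hn]) 0 1
  rw [LDE_conj] at f00 f11 f10 f01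
  have g00 : |h.1 0 0 - 1| < r := by simpa using f00
  have g11 : |h.1 1 1 - 1| < r := by simpa using f11
  have g10 : Real.exp n * |h.1 1 0| < r := by
    have : |Real.exp n * h.1 1 0| < r := by simpa using f10
    rwa [abs_mul, abs_of_pos (Real.exp_pos _)] at this
  have g01 : Real.exp n * |h.1 0 1| < r := by
    have : |Real.exp n * h.1 0 1| < r := by simpa using f01
    rwa [abs_mul, abs_of_pos (Real.exp_pos _)] at this
  have hee : Real.exp n * Real.exp (-n) = 1 := by rw [← Real.exp_add]; simp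
  have key : ∀ u : ℝ, Real.exp n * |u| < r → |u| ≤ r * Real.exp (-n) := by
    intro u hu
    have h1 := mul_le_mul_of_nonneg_right hu.le (Real.exp_pos (-(n : ℝ))).le
    have h2 : Real.exp n * |u| * Real.exp (-n) = |u| := by
      rw [mul_right_comm, hee, one_mul]
    linarith
  exact ⟨g00.le, g11.le, key _ g01, key _ g10⟩

theorem LDE_self {Γ : Subgroup SL(2, ℝ)} {r τ : ℝ} (hr : 0 ≤ r) (hτ : 0 ≤ τ) (x : XG Γ) : x ∈ LL.Bx Γ r τ x := by
  obtain ⟨g, hg⟩ := Quotient.exists_rep x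
  have hg' : mkX Γ g = x := hg
  refine ⟨g, 1, ⟨?_, ?_, ?_, ?_⟩, hg'.symm, by rw [mul_one]; exact hg'.symm⟩
  · simpa using hr
  · simpa using hr
  · simpa using hτ
  · simpa using hτ

/-- covering of the heavy points by few boxes -/
theorem LDE_cover (hBXR : LL.BXR_stmt) (Γ : Subgroup SL(2, ℝ)) (μ : Measure (XG Γ)) (hΓ : QU.SurfaceGroup Γ) (hμ : IsProbabilityMeasure μ)
    [OpensMeasurableSpace (XG Γ)]
    (r τ b : ℝ) (hτ : 0 < τ) (hτr : τ ≤ r) (hr : 4 * r ≤ 1) (hb : 0 < b) (D : Set (XG Γ)) (hD : ∀ x ∈ D, b ≤ μ.real (LL.Bx Γ r τ x)) :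
    ∃ T : Finset (XG Γ), (T.card : ℝ) * b ≤ 1 ∧ ∀ x ∈ D, ∃ q ∈ T, x ∈ LL.Bx Γ (16 * r) (16 * τ) q := by
  classical
  have hr0 : 0 ≤ r := hτ.le.trans hτr
  have hcl : ∀ x, IsClosed (LL.Bx Γ r τ x) := fun x => (hBXR Γ r τ x hΓ hτ.le hτr (by linarith)).2.2
  have hcount : ∀ T : Finset (XG Γ), (∀ x ∈ T, x ∈ D) → (Set.PairwiseDisjoint (T : Set (XG Γ)) (fun x => LL.Bx Γ r τ x)) → (T.card : ℝ) * b ≤ 1 := by
    intro T hT hdis
    have h1 : ∑ x ∈ T, μ.real (LL.Bx Γ r τ x) ≤ 1 := by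
      rw [← measureReal_biUnion_finset hdis (fun x _ => (hcl x).measurableSet)]
      exact measureReal_le_one
    have h2 : (T.card : ℝ) * b ≤ ∑ x ∈ T, μ.real (LL.Bx Γ r τ x) := by
      rw [← nsmul_eq_mul]
      exact Finset.card_nsmul_le_sum _ _ _ fun x hx => hD x (hT x hx)
    linarith
  -- the possible cardinalities
  obtain ⟨M, hM⟩ := exists_nat_gt (1 / b)
  have hbd : ∀ T : Finset (XG Γ), (∀ x ∈ T, x ∈ D) → (Set.PairwiseDisjoint (T : Set (XG Γ)) (fun x => LL.Bx Γ r τ x)) → T.card ≤ M := by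
    intro T hT hdis
    have h1 := hcount T hT hdis
    have h2 : (T.card : ℝ) ≤ 1 / b := by rw [le_div_iff₀ hb]; exact h1
    exact_mod_cast (h2.trans hM.le)
  obtain ⟨T, ⟨hT1, hT2⟩, hmax⟩ : ∃ T : Finset (XG Γ), ((∀ x ∈ T, x ∈ D) ∧ (Set.PairwiseDisjoint (T : Set (XG Γ)) (fun x => LL.Bx Γ r τ x))) ∧
      ∀ T' : Finset (XG Γ), ((∀ x ∈ T', x ∈ D) ∧ (Set.PairwiseDisjoint (T' : Set (XG Γ)) (fun x => LL.Bx Γ r τ x))) → T'.card ≤ T.card := by
    have hex : ∃ k : ℕ, ∃ T : Finset (XG Γ), ((∀ x ∈ T, x ∈ D) ∧ (Set.PairwiseDisjoint (T : Set (XG Γ)) (fun x => LL.Bx Γ r τ x))) ∧ M - T.card = k :=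
      ⟨M - 0, ∅, ⟨by simp, by simp⟩, by simp⟩
    obtain ⟨T, hT, hk⟩ := Nat.find_spec hex
    refine ⟨T, hT, fun T' hT' => ?_⟩
    have h1 : Nat.find hex ≤ M - T'.card := Nat.find_min' hex ⟨T', hT', rfl⟩
    have h2 := hbd T hT.1 hT.2
    have h3 := hbd T' hT'.1 hT'.2
    omega
  refine ⟨T, hcount T hT1 hT2, fun x hx => ?_⟩
  have hxx := LDE_self (Γ := Γ) hr0 hτ.le x
  have hmeet : ∃ q ∈ T, ∃ z, z ∈ LL.Bx Γ r τ x ∧ z ∈ LL.Bx Γ r τ q := by
    by_contra hcon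
    push Not at hcon
    have hxT : x ∉ T := fun h => hcon x h x hxx hxx
    have h1 := hmax (insert x T) ⟨?_, ?_⟩
    · rw [Finset.card_insert_of_notMem hxT] at h1
      omega
    · intro y hy
      rcases Finset.mem_insert.1 hy with rfl | hy
      · exact hx
      · exact hT1 y hy
    · rw [Finset.coe_insert]
      refine hT2.insert fun q hq _ => ?_
      refine Set.disjoint_left.2 fun z hz hz' => ?_
      exact hcon q hq z hz hz'
  obtain ⟨q, hq, z, hz1, hz2⟩ := hmeet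
  refine ⟨q, hq, ?_⟩
  have hqq := LDE_self (Γ := Γ) hr0 hτ.le q
  have h1 := (hBXR Γ r τ x hΓ hτ.le hτr (by linarith)).1 z x hz1 hxx
  have h2 := (hBXR Γ r τ q hΓ hτ.le hτr (by linarith)).1 z q hz2 hqq
  have h3 := (hBXR Γ (4 * r) (4 * τ) z hΓ (by linarith) (by linarith) hr).1 q x h2 h1
  have e1 : 4 * (4 * r) = 16 * r := by ring
  have e2 : 4 * (4 * τ) = 16 * τ := by ring
  rwa [e1, e2] at h3

theorem LDE_proof (hKAT : LL.KAT_stmt) (hBXR : LL.BXR_stmt) : LDE_stmt := by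
  intro Γ μ ρ hΓ hμ hinv hρ p P J ε hP hJ hε hε1 hcyl
  have hz : ∀ κ : ℝ, 0 < κ → μ ({x | ρ + 3 * ε < J x} ∩ Low Γ μ ρ) ≤ ENNReal.ofReal κ := by
    intro κ hκ
    obtain ⟨G, r0, C, hGm, hG1, hG2, hr0, hr1, hG3⟩ := hKAT Γ μ p P J ε (ρ + 3 * ε) κ hΓ hμ hinv hP hJ hε hκ (by linarith) hcyl
    have hC0 : 0 ≤ C := by
      obtain ⟨g⟩ : Nonempty (XG Γ) := ⟨mkX Γ 1⟩
      have h1 := hG3 g r0 hr0 le_rfl
      have h2 : 0 ≤ C * r0 ^ (2 * (ρ + 3 * ε - 2 * ε)) := measureReal_nonneg.trans h1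
      have h3 : 0 < r0 ^ (2 * (ρ + 3 * ε - 2 * ε)) := Real.rpow_pos_of_pos hr0 _
      exact nonneg_of_mul_nonneg_left h2 h3
    obtain ⟨r, hrd⟩ : ∃ r, r = r0 / 16 := ⟨_, rfl⟩
    have hr : 0 < r := by rw [hrd]; positivity
    -- the bad sets
    obtain ⟨B, hB⟩ : ∃ B : ℕ → Set (XG Γ), B = fun n : ℕ => {x | x ∈ G ∧ Real.exp (-((ρ + ε / 2) * (2 * n))) ≤ μ.real (LL.Bx Γ r (r * Real.exp (-n)) x)} := ⟨_, rfl⟩
    have hBm : ∀ n, μ (B n) ≤ ENNReal.ofReal (C * (16 * r) ^ (2 * (ρ + ε)) * Real.exp (-ε * n)) := by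
      intro n
      have hτ : 0 < r * Real.exp (-n) := mul_pos hr (Real.exp_pos _)
      have hen : Real.exp (-(n : ℝ)) ≤ 1 := Real.exp_le_one_iff.2 (by simp)
      have hτr : r * Real.exp (-n) ≤ r := by nlinarith
      obtain ⟨T, hT1, hT2⟩ := LDE_cover hBXR Γ μ hΓ hμ r (r * Real.exp (-n)) (Real.exp (-((ρ + ε / 2) * (2 * n)))) hτ hτr
        (by rw [hrd]; linarith) (Real.exp_pos _) (B n) (fun x hx => by rw [hB] at hx; exact hx.2)
      have h16 : 16 * r = r0 := by rw [hrd]; ring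
      have hb : ∀ q, μ.real (G ∩ LL.Bx Γ (16 * r) (16 * (r * Real.exp (-n))) q) ≤ C * (16 * (r * Real.exp (-n))) ^ (2 * (ρ + ε)) := by
        intro q
        have h1 := hG3 q (16 * (r * Real.exp (-n))) (by positivity) (by rw [← h16]; linarith)
        have e1 : 2 * (ρ + 3 * ε - 2 * ε) = 2 * (ρ + ε) := by ring
        rw [e1] at h1
        rw [h16]
        exact h1
      have hsub : B n ⊆ ⋃ q ∈ T, (G ∩ LL.Bx Γ (16 * r) (16 * (r * Real.exp (-n))) q) := by
        intro x hx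
        obtain ⟨q, hq, hxq⟩ := hT2 x hx
        rw [hB] at hx
        simp only [Set.mem_iUnion]
        exact ⟨q, hq, hx.1, hxq⟩
      have h1 : μ.real (B n) ≤ (T.card : ℝ) * (C * (16 * (r * Real.exp (-n))) ^ (2 * (ρ + ε))) := by
        refine (measureReal_mono hsub (measure_ne_top _ _)).trans ?_
        refine (measureReal_biUnion_finset_le _ _).trans ?_
        rw [← nsmul_eq_mul]
        exact Finset.sum_le_card_nsmul _ _ _ fun q _ => hb q
      have h2 : (T.card : ℝ) ≤ Real.exp ((ρ + ε / 2) * (2 * n)) := by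
        have e1 : Real.exp (-((ρ + ε / 2) * (2 * n))) * Real.exp ((ρ + ε / 2) * (2 * n)) = 1 := by rw [← Real.exp_add]; simp
        have h3 := mul_le_mul_of_nonneg_right hT1 (Real.exp_pos ((ρ + ε / 2) * (2 * n))).le
        rwa [mul_assoc, e1, mul_one, one_mul] at h3
      have h3 : (16 * (r * Real.exp (-n))) ^ (2 * (ρ + ε)) = (16 * r) ^ (2 * (ρ + ε)) * Real.exp (-n * (2 * (ρ + ε))) := by
        rw [← mul_assoc, Real.mul_rpow (by positivity) (Real.exp_pos _).le, ← Real.exp_mul]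
      have h4 : μ.real (B n) ≤ C * (16 * r) ^ (2 * (ρ + ε)) * Real.exp (-ε * n) := by
        refine h1.trans ?_
        rw [h3]
        have h5 : 0 ≤ C * ((16 * r) ^ (2 * (ρ + ε)) * Real.exp (-n * (2 * (ρ + ε)))) := by positivity
        refine (mul_le_mul_of_nonneg_right h2 h5).trans (le_of_eq ?_)
        have h6 : Real.exp ((ρ + ε / 2) * (2 * n)) * Real.exp (-n * (2 * (ρ + ε))) = Real.exp (-ε * n) := by
          rw [← Real.exp_add]
          congr 1
          ring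
        rw [← h6]
        ring
      rw [← ofReal_measureReal (measure_ne_top μ (B n))]
      exact ENNReal.ofReal_le_ofReal h4
    have hsum : ∑' n, μ (B n) ≠ ⊤ := by
      have hs : Summable fun n : ℕ => C * (16 * r) ^ (2 * (ρ + ε)) * Real.exp (-ε * n) := by
        refine Summable.mul_left _ ?_
        have h1 : (fun n : ℕ => Real.exp (-ε * n)) = fun n : ℕ => (Real.exp (-ε)) ^ n := by
          funext n
          rw [← Real.exp_nat_mul]
          congr 1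
          ring
        rw [h1]
        refine summable_geometric_of_lt_one (Real.exp_pos _).le ?_
        rw [Real.exp_lt_one_iff]
        linarith
      refine ne_top_of_le_ne_top ?_ (ENNReal.tsum_le_tsum hBm)
      rw [← ENNReal.ofReal_tsum_of_nonneg (fun n => by positivity) hs]
      exact ENNReal.ofReal_ne_top
    have hBC : μ {x | ∃ᶠ n in atTop, x ∈ B n} = 0 := measure_setOfPred_frequently_eq_zero hsum
    have hsub : {x | ρ + 3 * ε < J x} ∩ Low Γ μ ρ ⊆ ({x | ρ + 3 * ε < J x} \ G) ∪ {x | ∃ᶠ n in atTop, x ∈ B n} := by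
      rintro x ⟨hx1, hx2⟩
      by_cases hxG : x ∈ G
      · right
        refine (hx2 r hr (ε / 2) (by linarith)).mono fun n hn => ?_
        rw [hB]
        refine ⟨hxG, hn.trans ?_⟩
        exact measureReal_mono (LDE_sub Γ r n x) (measure_ne_top _ _)
      · exact Or.inl ⟨hx1, hxG⟩
    calc μ ({x | ρ + 3 * ε < J x} ∩ Low Γ μ ρ) ≤ μ (({x | ρ + 3 * ε < J x} \ G) ∪ {x | ∃ᶠ n in atTop, x ∈ B n}) := measure_mono hsub
      _ ≤ μ ({x | ρ + 3 * ε < J x} \ G) + μ {x | ∃ᶠ n in atTop, x ∈ B n} := measure_union_le _ _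
      _ ≤ ENNReal.ofReal κ := by rw [hBC, add_zero]; exact hG2
  refine le_antisymm (ENNReal.le_of_forall_pos_le_add fun κ hκ _ => ?_) zero_le
  rw [zero_add]
  have := hz κ (by exact_mod_cast hκ)
  simpa using this

end Pool.Agent.ER
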